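import Pool.Agent.H8.Alt.C2.Data.T1

namespace H8Alt.C2

namespace D000011

def K : ℕ :=
  0

set_option maxRecDepth 100000 in
def top : TT :=
  .lf

set_option maxRecDepth 100000 in
def it : IT :=
  .lf

set_option maxRecDepth 100000 in
def ct : TT :=
  .nd .lf 0x1004005000 8 0 .lf

theorem hK : checkK K top = true := by decide +kernel

theorem hI : checkI schemas T1 top it = true := by decide +kernel

theorem hC : checkC DK top it ct = true := by decide +kernel

theorem good {A : Type*} [NonUnitalNonAssocRing A] [IsAlternative A]
    (h2 : ∀ x : A, x + x = 0) (gen : ℕ → A) : GoodL (val DK gen) ct :=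
  stage_sound h2 (valid h2) hDK (goodT1 gen) hK hI hC

end D000011

namespace D000101

def K : ℕ :=
  0

set_option maxRecDepth 100000 in
def top : TT :=
  .lf

set_option maxRecDepth 100000 in
def it : IT :=
  .lf

set_option maxRecDepth 100000 in
def ct : TT :=
  .nd .lf 0x1003005000 9 0 .lf

theorem hK : checkK K top = true := by decide +kernel

theorem hI : checkI schemas T1 top it = true := by decide +kernel

theorem hC : checkC DK top it ct = true := by decide +kernel

theorem good {A : Type*} [NonUnitalNonAssocRing A] [IsAlternative A]
    (h2 : ∀ x : A, x + x = 0) (gen : ℕ → A) : GoodL (val DK gen) ct :=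
  stage_sound h2 (valid h2) hDK (goodT1 gen) hK hI hC

end D000101

namespace D000110

def K : ℕ :=
  0

set_option maxRecDepth 100000 in
def top : TT :=
  .lf

set_option maxRecDepth 100000 in
def it : IT :=
  .lf

set_option maxRecDepth 100000 in
def ct : TT :=
  .nd .lf 0x1003004000 10 0 .lf

theorem hK : checkK K top = true := by decide +kernel

theorem hI : checkI schemas T1 top it = true := by decide +kernel

theorem hC : checkC DK top it ct = true := by decide +kernel

theorem good {A : Type*} [NonUnitalNonAssocRing A] [IsAlternative A]
    (h2 : ∀ x : A, x + x = 0) (gen : ℕ → A) : GoodL (val DK gen) ct :=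
  stage_sound h2 (valid h2) hDK (goodT1 gen) hK hI hC

end D000110

namespace D001001

def K : ℕ :=
  0

set_option maxRecDepth 100000 in
def top : TT :=
  .lf

set_option maxRecDepth 100000 in
def it : IT :=
  .lf

set_option maxRecDepth 100000 in
def ct : TT :=
  .nd .lf 0x1002005000 14 0 .lf

theorem hK : checkK K top = true := by decide +kernel

theorem hI : checkI schemas T1 top it = true := by decide +kernel

theorem hC : checkC DK top it ct = true := by decide +kernel

theorem good {A : Type*} [NonUnitalNonAssocRing A] [IsAlternative A]
    (h2 : ∀ x : A, x + x = 0) (gen : ℕ → A) : GoodL (val DK gen) ct :=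
  stage_sound h2 (valid h2) hDK (goodT1 gen) hK hI hC

end D001001

namespace D001010

def K : ℕ :=
  0

set_option maxRecDepth 100000 in
def top : TT :=
  .lf

set_option maxRecDepth 100000 in
def it : IT :=
  .lf

set_option maxRecDepth 100000 in
def ct : TT :=
  .nd .lf 0x1002004000 15 0 .lf

theorem hK : checkK K top = true := by decide +kernel

theorem hI : checkI schemas T1 top it = true := by decide +kernel

theorem hC : checkC DK top it ct = true := by decide +kernel

theorem good {A : Type*} [NonUnitalNonAssocRing A] [IsAlternative A]
    (h2 : ∀ x : A, x + x = 0) (gen : ℕ → A) : GoodL (val DK gen) ct :=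
  stage_sound h2 (valid h2) hDK (goodT1 gen) hK hI hC

end D001010

namespace D001100

def K : ℕ :=
  0

set_option maxRecDepth 100000 in
def top : TT :=
  .lf

set_option maxRecDepth 100000 in
def it : IT :=
  .lf

set_option maxRecDepth 100000 in
def ct : TT :=
  .nd .lf 0x1002003000 19 0 .lf

theorem hK : checkK K top = true := by decide +kernel

theorem hI : checkI schemas T1 top it = true := by decide +kernel

theorem hC : checkC DK top it ct = true := by decide +kernel

theorem good {A : Type*} [NonUnitalNonAssocRing A] [IsAlternative A]
    (h2 : ∀ x : A, x + x = 0) (gen : ℕ → A) : GoodL (val DK gen) ct :=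
  stage_sound h2 (valid h2) hDK (goodT1 gen) hK hI hC

end D001100

namespace D010001

def K : ℕ :=
  0

set_option maxRecDepth 100000 in
def top : TT :=
  .lf

set_option maxRecDepth 100000 in
def it : IT :=
  .lf

set_option maxRecDepth 100000 in
def ct : TT :=
  .nd .lf 0x1001005000 36 0 .lf

theorem hK : checkK K top = true := by decide +kernel

theorem hI : checkI schemas T1 top it = true := by decide +kernel

theorem hC : checkC DK top it ct = true := by decide +kernel

theorem good {A : Type*} [NonUnitalNonAssocRing A] [IsAlternative A]
    (h2 : ∀ x : A, x + x = 0) (gen : ℕ → A) : GoodL (val DK gen) ct :=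
  stage_sound h2 (valid h2) hDK (goodT1 gen) hK hI hC

end D010001

namespace D010010

def K : ℕ :=
  0

set_option maxRecDepth 100000 in
def top : TT :=
  .lf

set_option maxRecDepth 100000 in
def it : IT :=
  .lf

set_option maxRecDepth 100000 in
def ct : TT :=
  .nd .lf 0x1001004000 37 0 .lf

theorem hK : checkK K top = true := by decide +kernel

theorem hI : checkI schemas T1 top it = true := by decide +kernel

theorem hC : checkC DK top it ct = true := by decide +kernel

theorem good {A : Type*} [NonUnitalNonAssocRing A] [IsAlternative A]
    (h2 : ∀ x : A, x + x = 0) (gen : ℕ → A) : GoodL (val DK gen) ct :=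
  stage_sound h2 (valid h2) hDK (goodT1 gen) hK hI hC

end D010010

namespace D010100

def K : ℕ :=
  0

set_option maxRecDepth 100000 in
def top : TT :=
  .lf

set_option maxRecDepth 100000 in
def it : IT :=
  .lf

set_option maxRecDepth 100000 in
def ct : TT :=
  .nd .lf 0x1001003000 41 0 .lf

theorem hK : checkK K top = true := by decide +kernel

theorem hI : checkI schemas T1 top it = true := by decide +kernel

theorem hC : checkC DK top it ct = true := by decide +kernel

theorem good {A : Type*} [NonUnitalNonAssocRing A] [IsAlternative A]
    (h2 : ∀ x : A, x + x = 0) (gen : ℕ → A) : GoodL (val DK gen) ct :=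
  stage_sound h2 (valid h2) hDK (goodT1 gen) hK hI hC

end D010100

namespace D011000

def K : ℕ :=
  0

set_option maxRecDepth 100000 in
def top : TT :=
  .lf

set_option maxRecDepth 100000 in
def it : IT :=
  .lf

set_option maxRecDepth 100000 in
def ct : TT :=
  .nd .lf 0x1001002000 58 0 .lf

theorem hK : checkK K top = true := by decide +kernel

theorem hI : checkI schemas T1 top it = true := by decide +kernel

theorem hC : checkC DK top it ct = true := by decide +kernel

theorem good {A : Type*} [NonUnitalNonAssocRing A] [IsAlternative A]
    (h2 : ∀ x : A, x + x = 0) (gen : ℕ → A) : GoodL (val DK gen) ct :=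
  stage_sound h2 (valid h2) hDK (goodT1 gen) hK hI hC

end D011000

namespace D100001

def K : ℕ :=
  0

set_option maxRecDepth 100000 in
def top : TT :=
  .lf

set_option maxRecDepth 100000 in
def it : IT :=
  .lf

set_option maxRecDepth 100000 in
def ct : TT :=
  .nd .lf 0x1000005000 142 0 .lf

theorem hK : checkK K top = true := by decide +kernel

theorem hI : checkI schemas T1 top it = true := by decide +kernel

theorem hC : checkC DK top it ct = true := by decide +kernel

theorem good {A : Type*} [NonUnitalNonAssocRing A] [IsAlternative A]
    (h2 : ∀ x : A, x + x = 0) (gen : ℕ → A) : GoodL (val DK gen) ct :=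
  stage_sound h2 (valid h2) hDK (goodT1 gen) hK hI hC

end D100001

namespace D100010

def K : ℕ :=
  0

set_option maxRecDepth 100000 in
def top : TT :=
  .lf

set_option maxRecDepth 100000 in
def it : IT :=
  .lf

set_option maxRecDepth 100000 in
def ct : TT :=
  .nd .lf 0x1000004000 143 0 .lf

theorem hK : checkK K top = true := by decide +kernel

theorem hI : checkI schemas T1 top it = true := by decide +kernel

theorem hC : checkC DK top it ct = true := by decide +kernel

theorem good {A : Type*} [NonUnitalNonAssocRing A] [IsAlternative A]
    (h2 : ∀ x : A, x + x = 0) (gen : ℕ → A) : GoodL (val DK gen) ct :=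
  stage_sound h2 (valid h2) hDK (goodT1 gen) hK hI hC

end D100010

namespace D100100

def K : ℕ :=
  0

set_option maxRecDepth 100000 in
def top : TT :=
  .lf

set_option maxRecDepth 100000 in
def it : IT :=
  .lf

set_option maxRecDepth 100000 in
def ct : TT :=
  .nd .lf 0x1000003000 147 0 .lf

theorem hK : checkK K top = true := by decide +kernel

theorem hI : checkI schemas T1 top it = true := by decide +kernel

theorem hC : checkC DK top it ct = true := by decide +kernel

theorem good {A : Type*} [NonUnitalNonAssocRing A] [IsAlternative A]
    (h2 : ∀ x : A, x + x = 0) (gen : ℕ → A) : GoodL (val DK gen) ct :=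
  stage_sound h2 (valid h2) hDK (goodT1 gen) hK hI hC

end D100100

namespace D101000

def K : ℕ :=
  0

set_option maxRecDepth 100000 in
def top : TT :=
  .lf

set_option maxRecDepth 100000 in
def it : IT :=
  .lf

set_option maxRecDepth 100000 in
def ct : TT :=
  .nd .lf 0x1000002000 164 0 .lf

theorem hK : checkK K top = true := by decide +kernel

theorem hI : checkI schemas T1 top it = true := by decide +kernel

theorem hC : checkC DK top it ct = true := by decide +kernel

theorem good {A : Type*} [NonUnitalNonAssocRing A] [IsAlternative A]
    (h2 : ∀ x : A, x + x = 0) (gen : ℕ → A) : GoodL (val DK gen) ct :=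
  stage_sound h2 (valid h2) hDK (goodT1 gen) hK hI hC

end D101000

namespace D110000

def K : ℕ :=
  0

set_option maxRecDepth 100000 in
def top : TT :=
  .lf

set_option maxRecDepth 100000 in
def it : IT :=
  .lf

set_option maxRecDepth 100000 in
def ct : TT :=
  .nd .lf 0x1000001000 248 0 .lf

theorem hK : checkK K top = true := by decide +kernel

theorem hI : checkI schemas T1 top it = true := by decide +kernel

theorem hC : checkC DK top it ct = true := by decide +kernel

theorem good {A : Type*} [NonUnitalNonAssocRing A] [IsAlternative A]
    (h2 : ∀ x : A, x + x = 0) (gen : ℕ → A) : GoodL (val DK gen) ct :=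
  stage_sound h2 (valid h2) hDK (goodT1 gen) hK hI hC

end D110000

end H8Alt.C2
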