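import Pool.Agent.H8.Alt.C2.Data.T2

namespace H8Alt.C2

namespace D000111

def K : ℕ :=
  0x100500800010040070001003006000

set_option maxRecDepth 100000 in
def top : TT :=
  .nd (.nd .lf 0x1003006000 1 0 .lf) 0x1004007000 2 0 (.nd .lf 0x1005008000 3 0 .lf)

set_option maxRecDepth 100000 in
def it : IT :=
  .nd .lf 0 0 [5,4,3] 0x778ffe7e7fc01f000 .lf

set_option maxRecDepth 100000 in
def ct : TT :=
  .nd (.nd (.nd .lf 0x1003006000 11 0 .lf) 0x1004007000 12 0 .lf) 0x1005008000 45067 1 (.nd .lf
  0x2003004005 13 0 .lf)

theorem hK : checkK K top = true := by decide +kernel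

theorem hI : checkI schemas T2 top it = true := by decide +kernel

theorem hC : checkC DK top it ct = true := by decide +kernel

theorem good {A : Type*} [NonUnitalNonAssocRing A] [IsAlternative A]
    (h2 : ∀ x : A, x + x = 0) (gen : ℕ → A) : GoodL (val DK gen) ct :=
  stage_sound h2 (valid h2) hDK (goodT2 h2 gen) hK hI hC

end D000111

namespace D001011

def K : ℕ :=
  0x100500d000100400c0001002006000

set_option maxRecDepth 100000 in
def top : TT :=
  .nd (.nd .lf 0x1002006000 1 0 .lf) 0x100400c000 2 0 (.nd .lf 0x100500d000 3 0 .lf)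

set_option maxRecDepth 100000 in
def it : IT :=
  .nd .lf 0 0 [5,4,2] 0x778ffe7e7fc01f000 .lf

set_option maxRecDepth 100000 in
def ct : TT :=
  .nd (.nd (.nd .lf 0x1002006000 16 0 .lf) 0x100400c000 17 0 .lf) 0x100500d000 65552 1 (.nd .lf
  0x2002004005 18 0 .lf)

theorem hK : checkK K top = true := by decide +kernel

theorem hI : checkI schemas T2 top it = true := by decide +kernel

theorem hC : checkC DK top it ct = true := by decide +kernel

theorem good {A : Type*} [NonUnitalNonAssocRing A] [IsAlternative A]
    (h2 : ∀ x : A, x + x = 0) (gen : ℕ → A) : GoodL (val DK gen) ct :=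
  stage_sound h2 (valid h2) hDK (goodT2 h2 gen) hK hI hC

end D001011

namespace D001101

def K : ℕ :=
  0x1005011000100300c0001002007000

set_option maxRecDepth 100000 in
def top : TT :=
  .nd (.nd .lf 0x1002007000 1 0 .lf) 0x100300c000 2 0 (.nd .lf 0x1005011000 3 0 .lf)

set_option maxRecDepth 100000 in
def it : IT :=
  .nd .lf 0 0 [5,3,2] 0x778ffe7e7fc01f000 .lf

set_option maxRecDepth 100000 in
def ct : TT :=
  .nd (.nd (.nd .lf 0x1002007000 20 0 .lf) 0x100300c000 21 0 .lf) 0x1005011000 81940 1 (.nd .lf
  0x2002003005 22 0 .lf)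

theorem hK : checkK K top = true := by decide +kernel

theorem hI : checkI schemas T2 top it = true := by decide +kernel

theorem hC : checkC DK top it ct = true := by decide +kernel

theorem good {A : Type*} [NonUnitalNonAssocRing A] [IsAlternative A]
    (h2 : ∀ x : A, x + x = 0) (gen : ℕ → A) : GoodL (val DK gen) ct :=
  stage_sound h2 (valid h2) hDK (goodT2 h2 gen) hK hI hC

end D001101

namespace D001110

def K : ℕ :=
  0x1004011000100300d0001002008000

set_option maxRecDepth 100000 in
def top : TT :=
  .nd (.nd .lf 0x1002008000 1 0 .lf) 0x100300d000 2 0 (.nd .lf 0x1004011000 3 0 .lf)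

set_option maxRecDepth 100000 in
def it : IT :=
  .nd .lf 0 0 [4,3,2] 0x778ffe7e7fc01f000 .lf

set_option maxRecDepth 100000 in
def ct : TT :=
  .nd (.nd (.nd .lf 0x1002008000 23 0 .lf) 0x100300d000 24 0 .lf) 0x1004011000 94231 1 (.nd .lf
  0x2002003004 25 0 .lf)

theorem hK : checkK K top = true := by decide +kernel

theorem hI : checkI schemas T2 top it = true := by decide +kernel

theorem hC : checkC DK top it ct = true := by decide +kernel

theorem good {A : Type*} [NonUnitalNonAssocRing A] [IsAlternative A]
    (h2 : ∀ x : A, x + x = 0) (gen : ℕ → A) : GoodL (val DK gen) ct :=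
  stage_sound h2 (valid h2) hDK (goodT2 h2 gen) hK hI hC

end D001110

namespace D010011

def K : ℕ :=
  0x100502300010040220001001006000

set_option maxRecDepth 100000 in
def top : TT :=
  .nd (.nd .lf 0x1001006000 1 0 .lf) 0x1004022000 2 0 (.nd .lf 0x1005023000 3 0 .lf)

set_option maxRecDepth 100000 in
def it : IT :=
  .nd .lf 0 0 [5,4,1] 0x778ffe7e7fc01f000 .lf

set_option maxRecDepth 100000 in
def ct : TT :=
  .nd (.nd (.nd .lf 0x1001006000 38 0 .lf) 0x1004022000 39 0 .lf) 0x1005023000 155686 1 (.nd .lf
  0x2001004005 40 0 .lf)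

theorem hK : checkK K top = true := by decide +kernel

theorem hI : checkI schemas T2 top it = true := by decide +kernel

theorem hC : checkC DK top it ct = true := by decide +kernel

theorem good {A : Type*} [NonUnitalNonAssocRing A] [IsAlternative A]
    (h2 : ∀ x : A, x + x = 0) (gen : ℕ → A) : GoodL (val DK gen) ct :=
  stage_sound h2 (valid h2) hDK (goodT2 h2 gen) hK hI hC

end D010011

namespace D010101

def K : ℕ :=
  0x100502700010030220001001007000

set_option maxRecDepth 100000 in
def top : TT :=
  .nd (.nd .lf 0x1001007000 1 0 .lf) 0x1003022000 2 0 (.nd .lf 0x1005027000 3 0 .lf)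

set_option maxRecDepth 100000 in
def it : IT :=
  .nd .lf 0 0 [5,3,1] 0x778ffe7e7fc01f000 .lf

set_option maxRecDepth 100000 in
def ct : TT :=
  .nd (.nd (.nd .lf 0x1001007000 42 0 .lf) 0x1003022000 43 0 .lf) 0x1005027000 172074 1 (.nd .lf
  0x2001003005 44 0 .lf)

theorem hK : checkK K top = true := by decide +kernel

theorem hI : checkI schemas T2 top it = true := by decide +kernel

theorem hC : checkC DK top it ct = true := by decide +kernel

theorem good {A : Type*} [NonUnitalNonAssocRing A] [IsAlternative A]
    (h2 : ∀ x : A, x + x = 0) (gen : ℕ → A) : GoodL (val DK gen) ct :=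
  stage_sound h2 (valid h2) hDK (goodT2 h2 gen) hK hI hC

end D010101

namespace D010110

def K : ℕ :=
  0x100402700010030230001001008000

set_option maxRecDepth 100000 in
def top : TT :=
  .nd (.nd .lf 0x1001008000 1 0 .lf) 0x1003023000 2 0 (.nd .lf 0x1004027000 3 0 .lf)

set_option maxRecDepth 100000 in
def it : IT :=
  .nd .lf 0 0 [4,3,1] 0x778ffe7e7fc01f000 .lf

set_option maxRecDepth 100000 in
def ct : TT :=
  .nd (.nd (.nd .lf 0x1001008000 45 0 .lf) 0x1003023000 46 0 .lf) 0x1004027000 184365 1 (.nd .lf
  0x2001003004 47 0 .lf)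

theorem hK : checkK K top = true := by decide +kernel

theorem hI : checkI schemas T2 top it = true := by decide +kernel

theorem hC : checkC DK top it ct = true := by decide +kernel

theorem good {A : Type*} [NonUnitalNonAssocRing A] [IsAlternative A]
    (h2 : ∀ x : A, x + x = 0) (gen : ℕ → A) : GoodL (val DK gen) ct :=
  stage_sound h2 (valid h2) hDK (goodT2 h2 gen) hK hI hC

end D010110

namespace D011001

def K : ℕ :=
  0x10050380001002022000100100c000

set_option maxRecDepth 100000 in
def top : TT :=
  .nd (.nd .lf 0x100100c000 1 0 .lf) 0x1002022000 2 0 (.nd .lf 0x1005038000 3 0 .lf)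

set_option maxRecDepth 100000 in
def it : IT :=
  .nd .lf 0 0 [5,2,1] 0x778ffe7e7fc01f000 .lf

set_option maxRecDepth 100000 in
def ct : TT :=
  .nd (.nd (.nd .lf 0x100100c000 59 0 .lf) 0x1002022000 60 0 .lf) 0x1005038000 241723 1 (.nd .lf
  0x2001002005 61 0 .lf)

theorem hK : checkK K top = true := by decide +kernel

theorem hI : checkI schemas T2 top it = true := by decide +kernel

theorem hC : checkC DK top it ct = true := by decide +kernel

theorem good {A : Type*} [NonUnitalNonAssocRing A] [IsAlternative A]
    (h2 : ∀ x : A, x + x = 0) (gen : ℕ → A) : GoodL (val DK gen) ct :=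
  stage_sound h2 (valid h2) hDK (goodT2 h2 gen) hK hI hC

end D011001

namespace D011010

def K : ℕ :=
  0x10040380001002023000100100d000

set_option maxRecDepth 100000 in
def top : TT :=
  .nd (.nd .lf 0x100100d000 1 0 .lf) 0x1002023000 2 0 (.nd .lf 0x1004038000 3 0 .lf)

set_option maxRecDepth 100000 in
def it : IT :=
  .nd .lf 0 0 [4,2,1] 0x778ffe7e7fc01f000 .lf

set_option maxRecDepth 100000 in
def ct : TT :=
  .nd (.nd (.nd .lf 0x100100d000 62 0 .lf) 0x1002023000 63 0 .lf) 0x1004038000 254014 1 (.nd .lf
  0x2001002004 64 0 .lf)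

theorem hK : checkK K top = true := by decide +kernel

theorem hI : checkI schemas T2 top it = true := by decide +kernel

theorem hC : checkC DK top it ct = true := by decide +kernel

theorem good {A : Type*} [NonUnitalNonAssocRing A] [IsAlternative A]
    (h2 : ∀ x : A, x + x = 0) (gen : ℕ → A) : GoodL (val DK gen) ct :=
  stage_sound h2 (valid h2) hDK (goodT2 h2 gen) hK hI hC

end D011010

namespace D011100

def K : ℕ :=
  0x100303800010020270001001011000

set_option maxRecDepth 100000 in
def top : TT :=
  .nd (.nd .lf 0x1001011000 1 0 .lf) 0x1002027000 2 0 (.nd .lf 0x1003038000 3 0 .lf)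

set_option maxRecDepth 100000 in
def it : IT :=
  .nd .lf 0 0 [3,2,1] 0x778ffe7e7fc01f000 .lf

set_option maxRecDepth 100000 in
def ct : TT :=
  .nd (.nd (.nd .lf 0x1001011000 75 0 .lf) 0x1002027000 76 0 .lf) 0x1003038000 307275 1 (.nd .lf
  0x2001002003 77 0 .lf)

theorem hK : checkK K top = true := by decide +kernel

theorem hI : checkI schemas T2 top it = true := by decide +kernel

theorem hC : checkC DK top it ct = true := by decide +kernel

theorem good {A : Type*} [NonUnitalNonAssocRing A] [IsAlternative A]
    (h2 : ∀ x : A, x + x = 0) (gen : ℕ → A) : GoodL (val DK gen) ct :=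
  stage_sound h2 (valid h2) hDK (goodT2 h2 gen) hK hI hC

end D011100

namespace D100011

def K : ℕ :=
  0x100508d000100408c0001000006000

set_option maxRecDepth 100000 in
def top : TT :=
  .nd (.nd .lf 0x1000006000 1 0 .lf) 0x100408c000 2 0 (.nd .lf 0x100508d000 3 0 .lf)

set_option maxRecDepth 100000 in
def it : IT :=
  .nd .lf 0 0 [5,4,0] 0x778ffe7e7fc01f000 .lf

set_option maxRecDepth 100000 in
def ct : TT :=
  .nd (.nd (.nd .lf 0x1000006000 144 0 .lf) 0x100408c000 145 0 .lf) 0x100508d000 589968 1 (.nd .lf
  0x2000004005 146 0 .lf)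

theorem hK : checkK K top = true := by decide +kernel

theorem hI : checkI schemas T2 top it = true := by decide +kernel

theorem hC : checkC DK top it ct = true := by decide +kernel

theorem good {A : Type*} [NonUnitalNonAssocRing A] [IsAlternative A]
    (h2 : ∀ x : A, x + x = 0) (gen : ℕ → A) : GoodL (val DK gen) ct :=
  stage_sound h2 (valid h2) hDK (goodT2 h2 gen) hK hI hC

end D100011

namespace D100101

def K : ℕ :=
  0x1005091000100308c0001000007000

set_option maxRecDepth 100000 in
def top : TT :=
  .nd (.nd .lf 0x1000007000 1 0 .lf) 0x100308c000 2 0 (.nd .lf 0x1005091000 3 0 .lf)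

set_option maxRecDepth 100000 in
def it : IT :=
  .nd .lf 0 0 [5,3,0] 0x778ffe7e7fc01f000 .lf

set_option maxRecDepth 100000 in
def ct : TT :=
  .nd (.nd (.nd .lf 0x1000007000 148 0 .lf) 0x100308c000 149 0 .lf) 0x1005091000 606356 1 (.nd .lf
  0x2000003005 150 0 .lf)

theorem hK : checkK K top = true := by decide +kernel

theorem hI : checkI schemas T2 top it = true := by decide +kernel

theorem hC : checkC DK top it ct = true := by decide +kernel

theorem good {A : Type*} [NonUnitalNonAssocRing A] [IsAlternative A]
    (h2 : ∀ x : A, x + x = 0) (gen : ℕ → A) : GoodL (val DK gen) ct :=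
  stage_sound h2 (valid h2) hDK (goodT2 h2 gen) hK hI hC

end D100101

namespace D100110

def K : ℕ :=
  0x1004091000100308d0001000008000

set_option maxRecDepth 100000 in
def top : TT :=
  .nd (.nd .lf 0x1000008000 1 0 .lf) 0x100308d000 2 0 (.nd .lf 0x1004091000 3 0 .lf)

set_option maxRecDepth 100000 in
def it : IT :=
  .nd .lf 0 0 [4,3,0] 0x778ffe7e7fc01f000 .lf

set_option maxRecDepth 100000 in
def ct : TT :=
  .nd (.nd (.nd .lf 0x1000008000 151 0 .lf) 0x100308d000 152 0 .lf) 0x1004091000 618647 1 (.nd .lf
  0x2000003004 153 0 .lf)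

theorem hK : checkK K top = true := by decide +kernel

theorem hI : checkI schemas T2 top it = true := by decide +kernel

theorem hC : checkC DK top it ct = true := by decide +kernel

theorem good {A : Type*} [NonUnitalNonAssocRing A] [IsAlternative A]
    (h2 : ∀ x : A, x + x = 0) (gen : ℕ → A) : GoodL (val DK gen) ct :=
  stage_sound h2 (valid h2) hDK (goodT2 h2 gen) hK hI hC

end D100110

namespace D101001

def K : ℕ :=
  0x10050a2000100208c000100000c000

set_option maxRecDepth 100000 in
def top : TT :=
  .nd (.nd .lf 0x100000c000 1 0 .lf) 0x100208c000 2 0 (.nd .lf 0x10050a2000 3 0 .lf)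

set_option maxRecDepth 100000 in
def it : IT :=
  .nd .lf 0 0 [5,2,0] 0x778ffe7e7fc01f000 .lf

set_option maxRecDepth 100000 in
def ct : TT :=
  .nd (.nd (.nd .lf 0x100000c000 165 0 .lf) 0x100208c000 166 0 .lf) 0x10050a2000 676005 1 (.nd .lf
  0x2000002005 167 0 .lf)

theorem hK : checkK K top = true := by decide +kernel

theorem hI : checkI schemas T2 top it = true := by decide +kernel

theorem hC : checkC DK top it ct = true := by decide +kernel

theorem good {A : Type*} [NonUnitalNonAssocRing A] [IsAlternative A]
    (h2 : ∀ x : A, x + x = 0) (gen : ℕ → A) : GoodL (val DK gen) ct :=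
  stage_sound h2 (valid h2) hDK (goodT2 h2 gen) hK hI hC

end D101001

namespace D101010

def K : ℕ :=
  0x10040a2000100208d000100000d000

set_option maxRecDepth 100000 in
def top : TT :=
  .nd (.nd .lf 0x100000d000 1 0 .lf) 0x100208d000 2 0 (.nd .lf 0x10040a2000 3 0 .lf)

set_option maxRecDepth 100000 in
def it : IT :=
  .nd .lf 0 0 [4,2,0] 0x778ffe7e7fc01f000 .lf

set_option maxRecDepth 100000 in
def ct : TT :=
  .nd (.nd (.nd .lf 0x100000d000 168 0 .lf) 0x100208d000 169 0 .lf) 0x10040a2000 688296 1 (.nd .lf
  0x2000002004 170 0 .lf)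

theorem hK : checkK K top = true := by decide +kernel

theorem hI : checkI schemas T2 top it = true := by decide +kernel

theorem hC : checkC DK top it ct = true := by decide +kernel

theorem good {A : Type*} [NonUnitalNonAssocRing A] [IsAlternative A]
    (h2 : ∀ x : A, x + x = 0) (gen : ℕ → A) : GoodL (val DK gen) ct :=
  stage_sound h2 (valid h2) hDK (goodT2 h2 gen) hK hI hC

end D101010

namespace D101100

def K : ℕ :=
  0x10030a200010020910001000011000

set_option maxRecDepth 100000 in
def top : TT :=
  .nd (.nd .lf 0x1000011000 1 0 .lf) 0x1002091000 2 0 (.nd .lf 0x10030a2000 3 0 .lf)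

set_option maxRecDepth 100000 in
def it : IT :=
  .nd .lf 0 0 [3,2,0] 0x778ffe7e7fc01f000 .lf

set_option maxRecDepth 100000 in
def ct : TT :=
  .nd (.nd (.nd .lf 0x1000011000 181 0 .lf) 0x1002091000 182 0 .lf) 0x10030a2000 741557 1 (.nd .lf
  0x2000002003 183 0 .lf)

theorem hK : checkK K top = true := by decide +kernel

theorem hI : checkI schemas T2 top it = true := by decide +kernel

theorem hC : checkC DK top it ct = true := by decide +kernel

theorem good {A : Type*} [NonUnitalNonAssocRing A] [IsAlternative A]
    (h2 : ∀ x : A, x + x = 0) (gen : ℕ → A) : GoodL (val DK gen) ct :=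
  stage_sound h2 (valid h2) hDK (goodT2 h2 gen) hK hI hC

end D101100

namespace D110001

def K : ℕ :=
  0x10050f6000100108c0001000022000

set_option maxRecDepth 100000 in
def top : TT :=
  .nd (.nd .lf 0x1000022000 1 0 .lf) 0x100108c000 2 0 (.nd .lf 0x10050f6000 3 0 .lf)

set_option maxRecDepth 100000 in
def it : IT :=
  .nd .lf 0 0 [5,1,0] 0x778ffe7e7fc01f000 .lf

set_option maxRecDepth 100000 in
def ct : TT :=
  .nd (.nd (.nd .lf 0x1000022000 249 0 .lf) 0x100108c000 250 0 .lf) 0x10050f6000 0xf90f9 1 (.nd .lf
  0x2000001005 251 0 .lf)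

theorem hK : checkK K top = true := by decide +kernel

theorem hI : checkI schemas T2 top it = true := by decide +kernel

theorem hC : checkC DK top it ct = true := by decide +kernel

theorem good {A : Type*} [NonUnitalNonAssocRing A] [IsAlternative A]
    (h2 : ∀ x : A, x + x = 0) (gen : ℕ → A) : GoodL (val DK gen) ct :=
  stage_sound h2 (valid h2) hDK (goodT2 h2 gen) hK hI hC

end D110001

namespace D110010

def K : ℕ :=
  0x10040f6000100108d0001000023000

set_option maxRecDepth 100000 in
def top : TT :=
  .nd (.nd .lf 0x1000023000 1 0 .lf) 0x100108d000 2 0 (.nd .lf 0x10040f6000 3 0 .lf)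

set_option maxRecDepth 100000 in
def it : IT :=
  .nd .lf 0 0 [4,1,0] 0x778ffe7e7fc01f000 .lf

set_option maxRecDepth 100000 in
def ct : TT :=
  .nd (.nd (.nd .lf 0x1000023000 252 0 .lf) 0x100108d000 253 0 .lf) 0x10040f6000 0xfc0fc 1 (.nd .lf
  0x2000001004 254 0 .lf)

theorem hK : checkK K top = true := by decide +kernel

theorem hI : checkI schemas T2 top it = true := by decide +kernel

theorem hC : checkC DK top it ct = true := by decide +kernel

theorem good {A : Type*} [NonUnitalNonAssocRing A] [IsAlternative A]
    (h2 : ∀ x : A, x + x = 0) (gen : ℕ → A) : GoodL (val DK gen) ct :=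
  stage_sound h2 (valid h2) hDK (goodT2 h2 gen) hK hI hC

end D110010

namespace D110100

def K : ℕ :=
  0x10030f600010010910001000027000

set_option maxRecDepth 100000 in
def top : TT :=
  .nd (.nd .lf 0x1000027000 1 0 .lf) 0x1001091000 2 0 (.nd .lf 0x10030f6000 3 0 .lf)

set_option maxRecDepth 100000 in
def it : IT :=
  .nd .lf 0 0 [3,1,0] 0x778ffe7e7fc01f000 .lf

set_option maxRecDepth 100000 in
def ct : TT :=
  .nd (.nd (.nd .lf 0x1000027000 265 0 .lf) 0x1001091000 266 0 .lf) 0x10030f6000 0x109109 1 (.nd .lf
  0x2000001003 267 0 .lf)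

theorem hK : checkK K top = true := by decide +kernel

theorem hI : checkI schemas T2 top it = true := by decide +kernel

theorem hC : checkC DK top it ct = true := by decide +kernel

theorem good {A : Type*} [NonUnitalNonAssocRing A] [IsAlternative A]
    (h2 : ∀ x : A, x + x = 0) (gen : ℕ → A) : GoodL (val DK gen) ct :=
  stage_sound h2 (valid h2) hDK (goodT2 h2 gen) hK hI hC

end D110100

namespace D111000

def K : ℕ :=
  0x10020f600010010a20001000038000

set_option maxRecDepth 100000 in
def top : TT :=
  .nd (.nd .lf 0x1000038000 1 0 .lf) 0x10010a2000 2 0 (.nd .lf 0x10020f6000 3 0 .lf)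

set_option maxRecDepth 100000 in
def it : IT :=
  .nd .lf 0 0 [2,1,0] 0x778ffe7e7fc01f000 .lf

set_option maxRecDepth 100000 in
def ct : TT :=
  .nd (.nd (.nd .lf 0x1000038000 332 0 .lf) 0x10010a2000 333 0 .lf) 0x10020f6000 0x14c14c 1 (.nd .lf
  0x2000001002 334 0 .lf)

theorem hK : checkK K top = true := by decide +kernel

theorem hI : checkI schemas T2 top it = true := by decide +kernel

theorem hC : checkC DK top it ct = true := by decide +kernel

theorem good {A : Type*} [NonUnitalNonAssocRing A] [IsAlternative A]
    (h2 : ∀ x : A, x + x = 0) (gen : ℕ → A) : GoodL (val DK gen) ct :=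
  stage_sound h2 (valid h2) hDK (goodT2 h2 gen) hK hI hC

end D111000

namespace D200001

def K : ℕ :=
  0

set_option maxRecDepth 100000 in
def top : TT :=
  .lf

set_option maxRecDepth 100000 in
def it : IT :=
  .lf

set_option maxRecDepth 100000 in
def ct : TT :=
  .nd .lf 0x100008c000 707 0 .lf

theorem hK : checkK K top = true := by decide +kernel

theorem hI : checkI schemas T2 top it = true := by decide +kernel

theorem hC : checkC DK top it ct = true := by decide +kernel

theorem good {A : Type*} [NonUnitalNonAssocRing A] [IsAlternative A]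
    (h2 : ∀ x : A, x + x = 0) (gen : ℕ → A) : GoodL (val DK gen) ct :=
  stage_sound h2 (valid h2) hDK (goodT2 h2 gen) hK hI hC

end D200001

namespace D200010

def K : ℕ :=
  0

set_option maxRecDepth 100000 in
def top : TT :=
  .lf

set_option maxRecDepth 100000 in
def it : IT :=
  .lf

set_option maxRecDepth 100000 in
def ct : TT :=
  .nd .lf 0x100008d000 708 0 .lf

theorem hK : checkK K top = true := by decide +kernel

theorem hI : checkI schemas T2 top it = true := by decide +kernel

theorem hC : checkC DK top it ct = true := by decide +kernel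

theorem good {A : Type*} [NonUnitalNonAssocRing A] [IsAlternative A]
    (h2 : ∀ x : A, x + x = 0) (gen : ℕ → A) : GoodL (val DK gen) ct :=
  stage_sound h2 (valid h2) hDK (goodT2 h2 gen) hK hI hC

end D200010

namespace D200100

def K : ℕ :=
  0

set_option maxRecDepth 100000 in
def top : TT :=
  .lf

set_option maxRecDepth 100000 in
def it : IT :=
  .lf

set_option maxRecDepth 100000 in
def ct : TT :=
  .nd .lf 0x1000091000 713 0 .lf

theorem hK : checkK K top = true := by decide +kernel

theorem hI : checkI schemas T2 top it = true := by decide +kernel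

theorem hC : checkC DK top it ct = true := by decide +kernel

theorem good {A : Type*} [NonUnitalNonAssocRing A] [IsAlternative A]
    (h2 : ∀ x : A, x + x = 0) (gen : ℕ → A) : GoodL (val DK gen) ct :=
  stage_sound h2 (valid h2) hDK (goodT2 h2 gen) hK hI hC

end D200100

namespace D201000

def K : ℕ :=
  0

set_option maxRecDepth 100000 in
def top : TT :=
  .lf

set_option maxRecDepth 100000 in
def it : IT :=
  .lf

set_option maxRecDepth 100000 in
def ct : TT :=
  .nd .lf 0x10000a2000 741 0 .lf

theorem hK : checkK K top = true := by decide +kernel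

theorem hI : checkI schemas T2 top it = true := by decide +kernel

theorem hC : checkC DK top it ct = true := by decide +kernel

theorem good {A : Type*} [NonUnitalNonAssocRing A] [IsAlternative A]
    (h2 : ∀ x : A, x + x = 0) (gen : ℕ → A) : GoodL (val DK gen) ct :=
  stage_sound h2 (valid h2) hDK (goodT2 h2 gen) hK hI hC

end D201000

namespace D210000

def K : ℕ :=
  0

set_option maxRecDepth 100000 in
def top : TT :=
  .lf

set_option maxRecDepth 100000 in
def it : IT :=
  .lf

set_option maxRecDepth 100000 in
def ct : TT :=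
  .nd .lf 0x10000f6000 906 0 .lf

theorem hK : checkK K top = true := by decide +kernel

theorem hI : checkI schemas T2 top it = true := by decide +kernel

theorem hC : checkC DK top it ct = true := by decide +kernel

theorem good {A : Type*} [NonUnitalNonAssocRing A] [IsAlternative A]
    (h2 : ∀ x : A, x + x = 0) (gen : ℕ → A) : GoodL (val DK gen) ct :=
  stage_sound h2 (valid h2) hDK (goodT2 h2 gen) hK hI hC

end D210000

end H8Alt.C2
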