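import Pool.Agent.H8.Alt.C2.Data.T4

namespace H8Alt.C2

namespace D211100

def K : ℕ :=
  0x200200338820010910a220010032e320010022c720000110f6200000314c200000314a20000021092000002108200000210720000010b510b30f600010382c7000101138800010023a50001001300000100019100020020910f6200003809120000270a220000010b4100019600010b50f600010a210900010023a700010013020001000195000100019300010034300001000194000109114c000

set_option maxRecDepth 100000 in
def top : TT :=
  .nd (.nd (.nd (.nd (.nd .lf 0x1000191000 15 0 .lf) 0x1000193000 4 0 (.nd .lf 0x1000194000 2 0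
  .lf)) 0x1000195000 5 0 (.nd (.nd .lf 0x1000196000 10 0 .lf) 0x1001300000 16 0 (.nd .lf
  0x1001302000 6 0 .lf))) 0x10023a5000 17 0 (.nd (.nd (.nd .lf 0x10023a7000 7 0 .lf) 0x1003430000 3
  0 (.nd .lf 0x1011388000 18 0 .lf)) 0x10382c7000 19 0 (.nd (.nd .lf 0x109114c000 1 0 .lf)
  0x10a2109000 8 0 (.nd .lf 0x10b30f6000 20 0 .lf)))) 0x10b50f6000 9 0 (.nd (.nd (.nd (.nd .lf
  0x20000010b4 11 0 .lf) 0x20000010b5 21 0 (.nd .lf 0x2000002107 22 0 .lf)) 0x2000002108 23 0 (.nd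
  (.nd .lf 0x2000002109 24 0 .lf) 0x200000314a 25 0 (.nd .lf 0x200000314c 26 0 .lf))) 0x20000110f6
  27 0 (.nd (.nd (.nd .lf 0x20000270a2 12 0 .lf) 0x2000038091 13 0 (.nd .lf 0x20010022c7 28 0 .lf))
  0x20010032e3 29 0 (.nd (.nd .lf 0x20010910a2 30 0 .lf) 0x2002003388 31 0 (.nd .lf 0x20020910f6 14
  0 .lf))))

set_option maxRecDepth 100000 in
def it : IT :=
  .nd (.nd (.nd (.nd (.nd .lf 0 0 [3,0,332] 0x2056abbd5abfa7dd0f8 .lf) 1 0 [2,1,711]
  0x58000dcc68602f5d2c9ba .lf) 2 0 [2,0,265] 0xd0b52af946fd2ee852 (.nd (.nd .lf 3 0 [17,0,246]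
  0xa400006f32ca977b04de5 .lf) 4 0 [1,0,181] 0x12842627b387f094497 .lf)) 5 1 [3,2,0,246]
  0x400004426fbefae6a0d069b (.nd (.nd (.nd .lf 6 1 [3,1,0,162] 0x824057303c5711c4cbd .lf) 7 1
  [3,0,2,246] 0x200e391dd09f8870b567 .lf) 8 1 [3,0,1,162] 0x200000167b5dbd7d15856a0a (.nd .lf 9 1
  [3,0,56,0] 0x10186719a811f795d12c .lf))) 10 1 [2,145,1,0] 0x44101d117537c704c61 (.nd (.nd (.nd
  (.nd .lf 11 1 [1,145,2,0] 0x4000211d804c4beb45b188 .lf) 12 1 [0,145,2,1] 0x8000203c2621bbc9513cea1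
  .lf) 13 1 [0,162,3,1] 0x100000923688942513c37a8a (.nd .lf 14 1 [0,246,3,2]
  0x4000010ae3f7ef6410265248 .lf)) 15 2 [3,56,0,0] 0x10010007bbbcd76188e531c (.nd (.nd (.nd .lf 16 2
  [2,39,0,0] 0x200800f25dc141071b7932 .lf) 17 4 [3,0,2,1,0] 0x2902401cb4022e7831cf7b7 .lf) 18 5
  [3,1,2,0,0] 0x816f8cb47285199cbd (.nd .lf 19 5 [3,2,1,0,0] 0x10111c43e3c06d420a8 .lf)))

set_option maxRecDepth 100000 in
def ct : TT :=
  .nd (.nd (.nd (.nd (.nd (.nd .lf 0x1000191000 0x4be4b8 4 .lf) 0x1000193000 0x4c34bd 0x14013005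
  .lf) 0x1000194000 1224 0 (.nd .lf 0x1000195000 0x4c54bd 3 .lf)) 0x1000196000 0x4c64bd 77825 (.nd
  (.nd (.nd .lf 0x1001300000 1218 0 .lf) 0x1001301000 1219 0 .lf) 0x1001302000 1220 0 (.nd .lf
  0x10023a5000 0x4c14ba 2 .lf))) 0x10023a6000 1221 0 (.nd (.nd (.nd (.nd .lf 0x10023a7000 1222 0
  .lf) 0x1003430000 1223 0 .lf) 0x1011388000 1215 0 (.nd .lf 0x10272e3000 1214 0 .lf)) 0x10382c7000
  1210 0 (.nd (.nd .lf 0x109114a000 1216 0 .lf) 0x109114c000 1213 19 (.nd .lf 0x10a2107000 1211 0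
  .lf)))) 0x10a2108000 1212 0 (.nd (.nd (.nd (.nd (.nd .lf 0x10a2109000 1213 0 .lf) 0x10b30f6000
  1208 0 .lf) 0x10b40f6000 1209 0 (.nd .lf 0x10b50f6000 1213 81939 .lf)) 0x20000010b4 0x4c54bd 77835
  (.nd (.nd (.nd .lf 0x20000010b5 1225 0 .lf) 0x2000002107 0x4c64c4 69639 .lf) 0x2000002108 0x4c34bd
  77836 (.nd .lf 0x2000002109 1226 0 .lf))) 0x200000314a 0x4c54c4 0x1401301000a005003 (.nd (.nd (.nd
  (.nd .lf 0x200000314c 0x4c94c84c74c64c54c34bd 0x1401301200b008005 .lf) 0x20000110f6 0x4c64c6 6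
  .lf) 0x2000038091 0x4c54c4 0x1401300a005003 (.nd .lf 0x20010022c7 0x4c74c7 53249 .lf))
  0x20010032e3 0x4c74c6 57347 (.nd (.nd .lf 0x20010910a2 0x4c74c64c54bd 36867 .lf) 0x2002003388
  0x4c74c4 61445 (.nd .lf 0x20020910f6 0x4c74c64c34bd 0x14013008005 .lf))))

theorem hK : checkK K top = true := by decide +kernel

theorem hI : checkI schemas T4 top it = true := by decide +kernel

theorem hC : checkC DK top it ct = true := by decide +kernel

theorem good {A : Type*} [NonUnitalNonAssocRing A] [IsAlternative A]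
    (h2 : ∀ x : A, x + x = 0) (gen : ℕ → A) : GoodL (val DK gen) ct :=
  stage_sound h2 (valid h2) hDK (goodT4 h2 gen) hK hI hC

end D211100

namespace D300011

def K : ℕ :=
  0x200008c08d20000042c1108d2c1000100479a00010002c400010002c6000

set_option maxRecDepth 100000 in
def top : TT :=
  .nd (.nd (.nd .lf 0x10002c4000 2 0 .lf) 0x10002c6000 1 0 (.nd .lf 0x100479a000 3 0 .lf))
  0x108d2c1000 4 0 (.nd (.nd .lf 0x20000042c1 5 0 .lf) 0x200008c08d 6 0 .lf)

set_option maxRecDepth 100000 in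
def it : IT :=
  .nd (.nd .lf 0 0 [4,0,705] 0xe9e1578bb7e627c41 .lf) 1 1 [5,0,0,141] 0x212b7ba3e184f4946b (.nd .lf
  2 1 [0,140,4,0] 0x1189221926033e107c .lf)

set_option maxRecDepth 100000 in
def ct : TT :=
  .nd (.nd (.nd (.nd .lf 0x10002c4000 0x79f79e 1 .lf) 0x10002c6000 1954 0 .lf) 0x100479a000 1952 0
  (.nd .lf 0x100579b000 1953 0 .lf)) 0x108c2c2000 1951 0 (.nd (.nd .lf 0x108d2c1000 1950 0 .lf)
  0x20000042c1 1954 3 (.nd .lf 0x200008c08d 1954 2 .lf))

theorem hK : checkK K top = true := by decide +kernel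

theorem hI : checkI schemas T4 top it = true := by decide +kernel

theorem hC : checkC DK top it ct = true := by decide +kernel

theorem good {A : Type*} [NonUnitalNonAssocRing A] [IsAlternative A]
    (h2 : ∀ x : A, x + x = 0) (gen : ℕ → A) : GoodL (val DK gen) ct :=
  stage_sound h2 (valid h2) hDK (goodT4 h2 gen) hK hI hC

end D300011

namespace D300101

def K : ℕ :=
  0x20000032c110002cb000

set_option maxRecDepth 100000 in
def top : TT :=
  .nd (.nd .lf 0x10002cb000 1 0 .lf) 0x20000032c1 2 0 .lf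

set_option maxRecDepth 100000 in
def it : IT :=
  .nd .lf 0 1 [0,140,3,0] 0x3a2598acb81de843f .lf

set_option maxRecDepth 100000 in
def ct : TT :=
  .nd (.nd (.nd .lf 0x10002cb000 1960 0 .lf) 0x100379a000 1958 0 (.nd .lf 0x10057a1000 1959 0 .lf))
  0x108c2c7000 1957 0 (.nd (.nd .lf 0x10912c1000 1956 0 .lf) 0x20000032c1 1960 1 .lf)

theorem hK : checkK K top = true := by decide +kernel

theorem hI : checkI schemas T4 top it = true := by decide +kernel

theorem hC : checkC DK top it ct = true := by decide +kernel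

theorem good {A : Type*} [NonUnitalNonAssocRing A] [IsAlternative A]
    (h2 : ∀ x : A, x + x = 0) (gen : ℕ → A) : GoodL (val DK gen) ct :=
  stage_sound h2 (valid h2) hDK (goodT4 h2 gen) hK hI hC

end D300101

namespace D300110

def K : ℕ :=
  0x200008d091108d2c700010047a100010002cf00010002ce000

set_option maxRecDepth 100000 in
def top : TT :=
  .nd (.nd (.nd .lf 0x10002ce000 1 0 .lf) 0x10002cf000 2 0 .lf) 0x10047a1000 3 0 (.nd (.nd .lf
  0x108d2c7000 4 0 .lf) 0x200008d091 5 0 .lf)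

set_option maxRecDepth 100000 in
def it : IT :=
  .nd (.nd .lf 0 0 [4,0,711] 0xd3c4cf270ffbcf87e .lf) 1 1 [4,0,0,145] 0x122b7b93ed82e09443 .lf

set_option maxRecDepth 100000 in
def ct : TT :=
  .nd (.nd (.nd .lf 0x10002ce000 0x7ab7aa 1 .lf) 0x10002cf000 1965 0 (.nd .lf 0x100379b000 1963 0
  .lf)) 0x10047a1000 1964 0 (.nd (.nd .lf 0x108d2c7000 1962 0 .lf) 0x10912c2000 1961 0 (.nd .lf
  0x200008d091 1965 2 .lf))

theorem hK : checkK K top = true := by decide +kernel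

theorem hI : checkI schemas T4 top it = true := by decide +kernel

theorem hC : checkC DK top it ct = true := by decide +kernel

theorem good {A : Type*} [NonUnitalNonAssocRing A] [IsAlternative A]
    (h2 : ∀ x : A, x + x = 0) (gen : ℕ → A) : GoodL (val DK gen) ct :=
  stage_sound h2 (valid h2) hDK (goodT4 h2 gen) hK hI hC

end D300110

namespace D301001

def K : ℕ :=
  0x20000022c110002e7000

set_option maxRecDepth 100000 in
def top : TT :=
  .nd (.nd .lf 0x10002e7000 1 0 .lf) 0x20000022c1 2 0 .lf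

set_option maxRecDepth 100000 in
def it : IT :=
  .nd .lf 0 1 [0,140,2,0] 0x3a2598acb81de843f .lf

set_option maxRecDepth 100000 in
def ct : TT :=
  .nd (.nd (.nd .lf 0x10002e7000 1998 0 .lf) 0x100279a000 1996 0 (.nd .lf 0x10057c7000 1997 0 .lf))
  0x108c2e3000 1995 0 (.nd (.nd .lf 0x10a22c1000 1994 0 .lf) 0x20000022c1 1998 1 .lf)

theorem hK : checkK K top = true := by decide +kernel

theorem hI : checkI schemas T4 top it = true := by decide +kernel

theorem hC : checkC DK top it ct = true := by decide +kernel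

theorem good {A : Type*} [NonUnitalNonAssocRing A] [IsAlternative A]
    (h2 : ∀ x : A, x + x = 0) (gen : ℕ → A) : GoodL (val DK gen) ct :=
  stage_sound h2 (valid h2) hDK (goodT4 h2 gen) hK hI hC

end D301001

end H8Alt.C2
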