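import Pool.Agent.H8.Alt.C2.Data.T4

namespace H8Alt.C2

namespace D301010

def K : ℕ :=
  0x20000042e320000022c210002eb000

set_option maxRecDepth 100000 in
def top : TT :=
  .nd (.nd .lf 0x10002eb000 1 0 .lf) 0x20000022c2 2 0 (.nd .lf 0x20000042e3 3 0 .lf)

set_option maxRecDepth 100000 in
def it : IT :=
  .nd (.nd .lf 0 1 [0,141,2,0] 0x3a2598acb81de843f .lf) 1 1 [0,162,4,0] 0x5449114950295082a .lf

set_option maxRecDepth 100000 in
def ct : TT :=
  .nd (.nd (.nd .lf 0x10002eb000 2003 0 .lf) 0x100279b000 2001 0 (.nd .lf 0x10047c7000 2002 0 .lf))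
  0x108d2e3000 2000 0 (.nd (.nd .lf 0x10a22c2000 1999 0 .lf) 0x20000022c2 2003 1 (.nd .lf
  0x20000042e3 2003 2 .lf))

theorem hK : checkK K top = true := by decide +kernel

theorem hI : checkI schemas T4 top it = true := by decide +kernel

theorem hC : checkC DK top it ct = true := by decide +kernel

theorem good {A : Type*} [NonUnitalNonAssocRing A] [IsAlternative A]
    (h2 : ∀ x : A, x + x = 0) (gen : ℕ → A) : GoodL (val DK gen) ct :=
  stage_sound h2 (valid h2) hDK (goodT4 h2 gen) hK hI hC

end D301010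

namespace D301100

def K : ℕ :=
  0x20000022c71000302000

set_option maxRecDepth 100000 in
def top : TT :=
  .nd (.nd .lf 0x1000302000 1 0 .lf) 0x20000022c7 2 0 .lf

set_option maxRecDepth 100000 in
def it : IT :=
  .nd .lf 0 1 [0,145,2,0] 0x3a2598acb81de843f .lf

set_option maxRecDepth 100000 in
def ct : TT :=
  .nd (.nd (.nd .lf 0x1000302000 2035 0 .lf) 0x10027a1000 2033 0 (.nd .lf 0x10037c7000 2034 0 .lf))
  0x10912e3000 2032 0 (.nd (.nd .lf 0x10a22c7000 2031 0 .lf) 0x20000022c7 2035 1 .lf)

theorem hK : checkK K top = true := by decide +kernel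

theorem hI : checkI schemas T4 top it = true := by decide +kernel

theorem hC : checkC DK top it ct = true := by decide +kernel

theorem good {A : Type*} [NonUnitalNonAssocRing A] [IsAlternative A]
    (h2 : ∀ x : A, x + x = 0) (gen : ℕ → A) : GoodL (val DK gen) ct :=
  stage_sound h2 (valid h2) hDK (goodT4 h2 gen) hK hI hC

end D301100

namespace D310001

def K : ℕ :=
  0x200000538810f62c1000100179a000100038c000100038a000

set_option maxRecDepth 100000 in
def top : TT :=
  .nd (.nd (.nd .lf 0x100038a000 1 0 .lf) 0x100038c000 2 0 .lf) 0x100179a000 3 0 (.nd (.nd .lf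
  0x10f62c1000 4 0 .lf) 0x2000005388 5 0 .lf)

set_option maxRecDepth 100000 in
def it : IT :=
  .nd (.nd .lf 0 0 [1,0,705] 0xd3c4cf270ffbcf87e .lf) 1 1 [0,246,5,0] 0x122b7b93ed82e09443 .lf

set_option maxRecDepth 100000 in
def ct : TT :=
  .nd (.nd (.nd .lf 0x100038a000 0x8cd8cc 1 .lf) 0x100038c000 2256 0 (.nd .lf 0x100179a000 2254 0
  .lf)) 0x10058c9000 2255 0 (.nd (.nd .lf 0x108c388000 2253 0 .lf) 0x10f62c1000 2252 0 (.nd .lf
  0x2000005388 2256 2 .lf))

theorem hK : checkK K top = true := by decide +kernel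

theorem hI : checkI schemas T4 top it = true := by decide +kernel

theorem hC : checkC DK top it ct = true := by decide +kernel

theorem good {A : Type*} [NonUnitalNonAssocRing A] [IsAlternative A]
    (h2 : ∀ x : A, x + x = 0) (gen : ℕ → A) : GoodL (val DK gen) ct :=
  stage_sound h2 (valid h2) hDK (goodT4 h2 gen) hK hI hC

end D310001

namespace D310010

def K : ℕ :=
  0x108d38800010048c9000100038f000

set_option maxRecDepth 100000 in
def top : TT :=
  .nd (.nd .lf 0x100038f000 1 0 .lf) 0x10048c9000 2 0 (.nd .lf 0x108d388000 3 0 .lf)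

set_option maxRecDepth 100000 in
def it : IT :=
  .nd .lf 0 0 [4,0,904] 0x778ffe7e7fc01f000 .lf

set_option maxRecDepth 100000 in
def ct : TT :=
  .nd (.nd (.nd .lf 0x100038f000 0x8d38d2 1 .lf) 0x1000390000 2261 0 (.nd .lf 0x100179b000 2259 0
  .lf)) 0x10048c9000 2260 0 (.nd (.nd .lf 0x108d388000 2258 0 .lf) 0x10f62c2000 2257 0 .lf)

theorem hK : checkK K top = true := by decide +kernel

theorem hI : checkI schemas T4 top it = true := by decide +kernel

theorem hC : checkC DK top it ct = true := by decide +kernel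

theorem good {A : Type*} [NonUnitalNonAssocRing A] [IsAlternative A]
    (h2 : ∀ x : A, x + x = 0) (gen : ℕ → A) : GoodL (val DK gen) ct :=
  stage_sound h2 (valid h2) hDK (goodT4 h2 gen) hK hI hC

end D310010

namespace D310100

def K : ℕ :=
  0x20000910f610003a7000

set_option maxRecDepth 100000 in
def top : TT :=
  .nd (.nd .lf 0x10003a7000 1 0 .lf) 0x20000910f6 2 0 .lf

set_option maxRecDepth 100000 in
def it : IT :=
  .nd .lf 0 1 [3,0,0,246] 0x3a2598acb81de843f .lf

set_option maxRecDepth 100000 in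
def ct : TT :=
  .nd (.nd (.nd .lf 0x10003a7000 2293 0 .lf) 0x10017a1000 2291 0 (.nd .lf 0x10038c9000 2292 0 .lf))
  0x1091388000 2290 0 (.nd (.nd .lf 0x10f62c7000 2289 0 .lf) 0x20000910f6 2293 1 .lf)

theorem hK : checkK K top = true := by decide +kernel

theorem hI : checkI schemas T4 top it = true := by decide +kernel

theorem hC : checkC DK top it ct = true := by decide +kernel

theorem good {A : Type*} [NonUnitalNonAssocRing A] [IsAlternative A]
    (h2 : ∀ x : A, x + x = 0) (gen : ℕ → A) : GoodL (val DK gen) ct :=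
  stage_sound h2 (valid h2) hDK (goodT4 h2 gen) hK hI hC

end D310100

end H8Alt.C2
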