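import Pool.Agent.H8.Alt.C2.Data.T4

namespace H8Alt.C2

namespace D311000

def K : ℕ :=
  0x20000a20f620000012e31000430000

set_option maxRecDepth 100000 in
def top : TT :=
  .nd (.nd .lf 0x1000430000 1 0 .lf) 0x20000012e3 2 0 (.nd .lf 0x20000a20f6 3 0 .lf)

set_option maxRecDepth 100000 in
def it : IT :=
  .nd (.nd .lf 0 1 [2,0,0,246] 0x5449114950295082a .lf) 1 1 [0,162,1,0] 0x3a2598acb81de843f .lf

set_option maxRecDepth 100000 in
def ct : TT :=
  .nd (.nd (.nd .lf 0x1000430000 2513 0 .lf) 0x10017c7000 2511 0 (.nd .lf 0x10028c9000 2512 0 .lf))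
  0x10a2388000 2510 0 (.nd (.nd .lf 0x10f62e3000 2509 0 .lf) 0x20000012e3 2513 2 (.nd .lf
  0x20000a20f6 2513 1 .lf))

theorem hK : checkK K top = true := by decide +kernel

theorem hI : checkI schemas T4 top it = true := by decide +kernel

theorem hC : checkC DK top it ct = true := by decide +kernel

theorem good {A : Type*} [NonUnitalNonAssocRing A] [IsAlternative A]
    (h2 : ∀ x : A, x + x = 0) (gen : ℕ → A) : GoodL (val DK gen) ct :=
  stage_sound h2 (valid h2) hDK (goodT4 h2 gen) hK hI hC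

end D311000

end H8Alt.C2
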