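import Pool.Agent.H8.Alt.C2.Data.T5

namespace H8Alt.C2

namespace D301101

def K : ℕ :=
  0x20050a22c720030a22c120030057c720000930a220000072e320000022cb10037cc000100031400020020057a120000920a220000910a3200000c2c720000022ca10b52c100010942e300010057f100010027a6000100030800010a52c700010912e70001000313000100030f00010a22cb000108c30200010003120001000311000

set_option maxRecDepth 100000 in
def top : TT :=
  .nd (.nd (.nd (.nd (.nd .lf 0x1000308000 9 0 .lf) 0x100030f000 5 0 (.nd .lf 0x1000311000 1 0 .lf))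
  0x1000312000 2 0 (.nd (.nd .lf 0x1000313000 6 0 .lf) 0x1000314000 19 0 .lf)) 0x10027a6000 10 0
  (.nd (.nd (.nd .lf 0x10037cc000 20 0 .lf) 0x10057f1000 11 0 (.nd .lf 0x108c302000 3 0 .lf))
  0x10912e7000 7 0 (.nd (.nd .lf 0x10942e3000 12 0 .lf) 0x10a22cb000 4 0 .lf))) 0x10a52c7000 8 0
  (.nd (.nd (.nd (.nd .lf 0x10b52c1000 13 0 .lf) 0x20000022ca 14 0 (.nd .lf 0x20000022cb 21 0 .lf))
  0x20000072e3 22 0 (.nd (.nd .lf 0x200000c2c7 15 0 .lf) 0x20000910a3 16 0 .lf)) 0x20000920a2 17 0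
  (.nd (.nd (.nd .lf 0x20000930a2 23 0 .lf) 0x20020057a1 18 0 .lf) 0x20030057c7 24 0 (.nd (.nd .lf
  0x20030a22c1 25 0 .lf) 0x20050a22c7 26 0 .lf)))

set_option maxRecDepth 100000 in
def it : IT :=
  .nd (.nd (.nd (.nd (.nd .lf 0 0 [5,0,770] 0x4062aaaa4a6fb78d8f2 .lf) 1 0 [3,0,743]
  0x8004191e6afd6f592a922 .lf) 2 0 [2,0,715] 0x21841e2474479b544ef (.nd (.nd .lf 3 0 [0,140,181]
  0x11045d8404c272896593 .lf) 4 1 [5,711,2,0] 0x24809ad15f1774727d69 .lf)) 5 1 [3,0,0,163]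
  0x8012c80c087a76475513 (.nd (.nd (.nd .lf 6 1 [7,0,0,162] 0x1000323f69f9af22cb95a .lf) 7 1
  [2,0,3,705] 0x1000222d4620b099384d68b .lf) 8 1 [2,0,0,147] 0x400101273fd1966965054b (.nd .lf 9 1
  [0,148,2,0] 0x1400004492f4f3039b1836 .lf))) 10 1 [0,711,5,2] 0x200a1c526e1208d9bcdb9 (.nd (.nd
  (.nd (.nd .lf 11 1 [0,739,5,3] 0x8008301df367159e4cf513 .lf) 12 2 [5,2,711,0]
  0x2026000ec0c5a269de3af45 .lf) 13 2 [7,0,162,0] 0x210000196b60a1839494ab (.nd .lf 14 2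
  [12,0,145,0] 0xc000a637ba4981fa846b .lf)) 15 6 [0,5,3,162] 0x448922393e06d610ac (.nd (.nd (.nd .lf
  16 6 [0,5,2,145] 0xca27b8bc980f6846b .lf) 17 6 [0,3,162,5] 0x840391de0a38c74b46f .lf) 18 6
  [0,2,145,5] 0x8889662b2e077a10fc (.nd .lf 19 5 [3,2,0,140,0] 0x1008700cc88e8be1bd45 .lf)))

set_option maxRecDepth 100000 in
def ct : TT :=
  .nd (.nd (.nd (.nd (.nd .lf 0x100030f000 0x8077fc 3 .lf) 0x1000311000 0x8097fc 0x11010002 .lf)
  0x1000312000 0x80a7fc 69633 (.nd .lf 0x1000313000 2060 0 .lf)) 0x1000314000 2061 0 (.nd (.nd .lf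
  0x1000315000 2062 0 .lf) 0x10027a6000 2056 0 (.nd .lf 0x10037cc000 2058 0 .lf))) 0x10057f1000 2059
  0 (.nd (.nd (.nd (.nd .lf 0x10a22cb000 2044 0 .lf) 0x20000022cb 2061 10 .lf) 0x20000072e3 0x80a80a
  0x1000e007002001 (.nd .lf 0x20000930a2 0x8097fc 0x14010009004002 .lf)) 0x20020057a1 0x80b80a
  0x1301101000b002 (.nd (.nd .lf 0x20030057c7 0x80b808 0x1201101000c003 .lf) 0x20030a22c1
  0x80b80a8077fc 0x11008001 (.nd .lf 0x20050a22c7 0x80b8098077fc 0x1000f00d00b006005003002001 .lf)))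

theorem hK : checkK K top = true := by decide +kernel

theorem hI : checkI schemas T5 top it = true := by decide +kernel

theorem hC : checkC DK top it ct = true := by decide +kernel

theorem good {A : Type*} [NonUnitalNonAssocRing A] [IsAlternative A]
    (h2 : ∀ x : A, x + x = 0) (gen : ℕ → A) : GoodL (val DK gen) ct :=
  stage_sound h2 (valid h2) hDK (goodT5 h2 gen) hK hI hC

end D301101

end H8Alt.C2
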