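import Pool.Agent.H8.Alt.C2.Data.DK

namespace H8Alt.C2

def T1 : TT := .lf

theorem goodT1 {A : Type*} [NonUnitalNonAssocRing A] [IsAlternative A] (gen : ℕ → A) :
    GoodL (val DK gen) T1 := goodL_of_all trivial

end H8Alt.C2
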