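import Pool.Agent.H8.Alt.C2.Data.S2

namespace H8Alt.C2

set_option maxRecDepth 100000 in
def T2 : TT :=
  .nd (.nd (.nd (.nd .lf 0x1000001000 248 0 .lf) 0x1000002000 164 0 (.nd .lf 0x1000003000 147 0
  .lf)) 0x1000004000 143 0 (.nd (.nd .lf 0x1000005000 142 0 .lf) 0x1001002000 58 0 (.nd .lf
  0x1001003000 41 0 .lf))) 0x1001004000 37 0 (.nd (.nd (.nd .lf 0x1001005000 36 0 .lf) 0x1002003000
  19 0 (.nd .lf 0x1002004000 15 0 .lf)) 0x1002005000 14 0 (.nd (.nd .lf 0x1003004000 10 0 .lf)
  0x1003005000 9 0 (.nd .lf 0x1004005000 8 0 .lf)))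

theorem hU2 : checkU [T1, D000011.ct, D000101.ct, D000110.ct, D001001.ct, D001010.ct, D001100.ct, D010001.ct,
  D010010.ct, D010100.ct, D011000.ct, D100001.ct, D100010.ct, D100100.ct, D101000.ct, D110000.ct]
    T2 = true := by decide +kernel

theorem goodT2 {A : Type*} [NonUnitalNonAssocRing A] [IsAlternative A]
    (h2 : ∀ x : A, x + x = 0) (gen : ℕ → A) : GoodL (val DK gen) T2 := by
  refine checkU_sound ?_ hU2
  intro t ht
  simp only [List.mem_cons, List.not_mem_nil, or_false] at ht
  rcases ht with rfl | rfl | rfl | rfl | rfl | rfl | rfl | rfl | rfl | rfl | rfl | rfl | rfl | rfl | rfl | rfl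
  · exact goodT1 gen
  · exact D000011.good h2 gen
  · exact D000101.good h2 gen
  · exact D000110.good h2 gen
  · exact D001001.good h2 gen
  · exact D001010.good h2 gen
  · exact D001100.good h2 gen
  · exact D010001.good h2 gen
  · exact D010010.good h2 gen
  · exact D010100.good h2 gen
  · exact D011000.good h2 gen
  · exact D100001.good h2 gen
  · exact D100010.good h2 gen
  · exact D100100.good h2 gen
  · exact D101000.good h2 gen
  · exact D110000.good h2 gen

end H8Alt.C2
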