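import Pool.Agent.H8.Alt.C2.Data.S3

namespace H8Alt.C2

set_option maxRecDepth 100000 in
def T3 : TT :=
  .nd (.nd (.nd (.nd (.nd (.nd (.nd .lf 0x1000001000 248 0 .lf) 0x1000002000 164 0 (.nd .lf
  0x1000003000 147 0 .lf)) 0x1000004000 143 0 (.nd (.nd .lf 0x1000005000 142 0 .lf) 0x1000006000 144
  0 .lf)) 0x1000007000 148 0 (.nd (.nd (.nd .lf 0x1000008000 151 0 .lf) 0x100000c000 165 0 .lf)
  0x100000d000 168 0 (.nd (.nd .lf 0x1000011000 181 0 .lf) 0x1000022000 249 0 .lf))) 0x1000023000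
  252 0 (.nd (.nd (.nd (.nd .lf 0x1000027000 265 0 .lf) 0x1000038000 332 0 (.nd .lf 0x100008c000 707
  0 .lf)) 0x100008d000 708 0 (.nd (.nd .lf 0x1000091000 713 0 .lf) 0x10000a2000 741 0 .lf))
  0x10000f6000 906 0 (.nd (.nd (.nd .lf 0x1001002000 58 0 .lf) 0x1001003000 41 0 .lf) 0x1001004000
  37 0 (.nd (.nd .lf 0x1001005000 36 0 .lf) 0x1001006000 38 0 .lf)))) 0x1001007000 42 0 (.nd (.nd
  (.nd (.nd (.nd .lf 0x1001008000 45 0 .lf) 0x100100c000 59 0 (.nd .lf 0x100100d000 62 0 .lf))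
  0x1001011000 75 0 (.nd (.nd .lf 0x100108c000 250 0 .lf) 0x100108d000 253 0 .lf)) 0x1001091000 266
  0 (.nd (.nd (.nd .lf 0x10010a2000 333 0 .lf) 0x1002003000 19 0 .lf) 0x1002004000 15 0 (.nd (.nd
  .lf 0x1002005000 14 0 .lf) 0x1002006000 16 0 .lf))) 0x1002007000 20 0 (.nd (.nd (.nd (.nd .lf
  0x1002008000 23 0 .lf) 0x1002022000 60 0 .lf) 0x1002023000 63 0 (.nd (.nd .lf 0x1002027000 76 0
  .lf) 0x100208c000 166 0 .lf)) 0x100208d000 169 0 (.nd (.nd (.nd .lf 0x1002091000 182 0 .lf)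
  0x10020f6000 0x14c14c 0 .lf) 0x1003004000 10 0 (.nd (.nd .lf 0x1003005000 9 0 .lf) 0x1003006000 11
  0 .lf))))) 0x100300c000 21 0 (.nd (.nd (.nd (.nd (.nd (.nd .lf 0x100300d000 24 0 .lf) 0x1003022000
  43 0 (.nd .lf 0x1003023000 46 0 .lf)) 0x1003038000 307275 0 (.nd (.nd .lf 0x100308c000 149 0 .lf)
  0x100308d000 152 0 .lf)) 0x10030a2000 741557 0 (.nd (.nd (.nd .lf 0x10030f6000 0x109109 0 .lf)
  0x1004005000 8 0 .lf) 0x1004007000 12 0 (.nd (.nd .lf 0x100400c000 17 0 .lf) 0x1004011000 94231 0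
  .lf))) 0x1004022000 39 0 (.nd (.nd (.nd (.nd .lf 0x1004027000 184365 0 .lf) 0x1004038000 254014 0
  .lf) 0x100408c000 145 0 (.nd (.nd .lf 0x1004091000 618647 0 .lf) 0x10040a2000 688296 0 .lf))
  0x10040f6000 0xfc0fc 0 (.nd (.nd (.nd .lf 0x1005008000 45067 0 .lf) 0x100500d000 65552 0 .lf)
  0x1005011000 81940 0 (.nd (.nd .lf 0x1005023000 155686 0 .lf) 0x1005027000 172074 0 .lf))))
  0x1005038000 241723 0 (.nd (.nd (.nd (.nd (.nd .lf 0x100508d000 589968 0 .lf) 0x1005091000 606356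
  0 (.nd .lf 0x10050a2000 676005 0 .lf)) 0x10050f6000 0xf90f9 0 (.nd (.nd .lf 0x2000001002 334 0
  .lf) 0x2000001003 267 0 .lf)) 0x2000001004 254 0 (.nd (.nd (.nd .lf 0x2000001005 251 0 .lf)
  0x2000002003 183 0 .lf) 0x2000002004 170 0 (.nd (.nd .lf 0x2000002005 167 0 .lf) 0x2000003004 153
  0 .lf))) 0x2000003005 150 0 (.nd (.nd (.nd (.nd .lf 0x2000004005 146 0 .lf) 0x2001002003 77 0 .lf)
  0x2001002004 64 0 (.nd (.nd .lf 0x2001002005 61 0 .lf) 0x2001003004 47 0 .lf)) 0x2001003005 44 0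
  (.nd (.nd (.nd .lf 0x2001004005 40 0 .lf) 0x2002003004 25 0 .lf) 0x2002003005 22 0 (.nd (.nd .lf
  0x2002004005 18 0 .lf) 0x2003004005 13 0 .lf)))))

theorem hU3 : checkU [T2, D000111.ct, D001011.ct, D001101.ct, D001110.ct, D010011.ct, D010101.ct, D010110.ct,
  D011001.ct, D011010.ct, D011100.ct, D100011.ct, D100101.ct, D100110.ct, D101001.ct, D101010.ct,
  D101100.ct, D110001.ct, D110010.ct, D110100.ct, D111000.ct, D200001.ct, D200010.ct, D200100.ct,
  D201000.ct, D210000.ct]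
    T3 = true := by decide +kernel

theorem goodT3 {A : Type*} [NonUnitalNonAssocRing A] [IsAlternative A]
    (h2 : ∀ x : A, x + x = 0) (gen : ℕ → A) : GoodL (val DK gen) T3 := by
  refine checkU_sound ?_ hU3
  intro t ht
  simp only [List.mem_cons, List.not_mem_nil, or_false] at ht
  rcases ht with rfl | rfl | rfl | rfl | rfl | rfl | rfl | rfl | rfl | rfl | rfl | rfl | rfl | rfl | rfl | rfl | rfl | rfl | rfl | rfl | rfl | rfl | rfl | rfl | rfl | rfl
  · exact goodT2 h2 gen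
  · exact D000111.good h2 gen
  · exact D001011.good h2 gen
  · exact D001101.good h2 gen
  · exact D001110.good h2 gen
  · exact D010011.good h2 gen
  · exact D010101.good h2 gen
  · exact D010110.good h2 gen
  · exact D011001.good h2 gen
  · exact D011010.good h2 gen
  · exact D011100.good h2 gen
  · exact D100011.good h2 gen
  · exact D100101.good h2 gen
  · exact D100110.good h2 gen
  · exact D101001.good h2 gen
  · exact D101010.good h2 gen
  · exact D101100.good h2 gen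
  · exact D110001.good h2 gen
  · exact D110010.good h2 gen
  · exact D110100.good h2 gen
  · exact D111000.good h2 gen
  · exact D200001.good h2 gen
  · exact D200010.good h2 gen
  · exact D200100.good h2 gen
  · exact D201000.good h2 gen
  · exact D210000.good h2 gen

end H8Alt.C2
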